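import Pool.Agent.Helper97.SZ.Goals

/-!
# Packet SZ-PAL: compactly supported inverse of an embedding of a ball
-/

set_option autoImplicit false

open Set Filter Topology Metric
open scoped ContDiff

namespace Pool.Agent.Helper28.SZ

open Pool.Agent.Helper91.SY Pool.Agent.Helper97.SZ

theorem sm_symm {E : Type} [NormedAddCommGroup E] [NormedSpace ℝ E] {g : E ≃ E} (h : Sm g) :
    Sm g.symm := ⟨h.2, h.1⟩

theorem sm_trans {E : Type} [NormedAddCommGroup E] [NormedSpace ℝ E] {g g' : E ≃ E} (h : Sm g)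
    (h' : Sm g') : Sm (g.trans g') := ⟨h'.1.comp h.1, h.2.comp h'.2⟩

theorem pal (hBL : StmtBLOW) (hSC : StmtSCALE) (hCO : StmtCONJ) : StmtPAL := by
  intro E _ _ _ ψ U R hU hR hRU hψ hinj hder hψ0 hd0
  obtain ⟨δ, hδ, hδU⟩ := (isCompact_closedBall (0 : E) R).exists_cthickening_subset_open hU hRU
  rw [cthickening_closedBall hδ.le hR.le] at hδU
  have hUU : ∀ x : E, ‖x‖ ≤ R + δ → x ∈ U := by
    intro x hx
    apply hδU
    rw [mem_closedBall, dist_zero_right]
    linarith
  have h0U : (0 : E) ∈ U := hUU 0 (by rw [norm_zero]; linarith)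
  obtain ⟨ε₀, hε₀, hblow⟩ := hBL E ψ U (R + δ / 4) (R + δ / 2) 1 hU h0U hψ hψ0 hd0
    (by linarith) (by linarith) one_pos
  have hε : 0 < min ε₀ 1 := lt_min hε₀ one_pos
  generalize hεd : min ε₀ 1 = ε at hε
  have hε1 : ε ≤ ε₀ := by rw [← hεd]; exact min_le_left _ _
  have hε2 : ε ≤ 1 := by rw [← hεd]; exact min_le_right _ _
  obtain ⟨P, hPs, hPid, hPW, hPψ, -⟩ := hblow ε hε hε1
  obtain ⟨c, hcs, hcid, hcε⟩ := hSC E (R + δ / 4) (R + δ / 2) ε (by linarith) (by linarith) hε hε2
  obtain ⟨s, hss, hsid, hsε⟩ := hSC E (R + δ / 2) (R + δ) ε (by linarith) (by linarith) hε hε2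
  have hKU : closedBall (0 : E) (R + δ / 2) ⊆ U := by
    intro x hx
    rw [mem_closedBall, dist_zero_right] at hx
    exact hUU x (by linarith)
  obtain ⟨C, hCs, hCid, hCψ⟩ := hCO E ψ U (closedBall 0 (R + δ / 2)) c hU
    (isCompact_closedBall _ _) hKU hψ hinj hder hcs (by
      intro x hx
      rw [mem_closedBall, dist_zero_right, not_le] at hx
      exact hcid x hx.le)
  have hcomp : IsCompact (ψ '' closedBall (0 : E) (R + δ / 2)) :=
    (isCompact_closedBall _ _).image_of_continuousOn (hψ.continuousOn.mono hKU)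
  obtain ⟨M, hM⟩ := hcomp.isBounded.exists_norm_le
  have hP1 : ∀ x, ‖x‖ ≤ R + δ / 4 → ‖P x‖ ≤ R + δ / 2 := by
    intro x hx
    by_contra hcon
    rw [not_le] at hcon
    have h1 : P (P x) = P x := hPid _ hcon.le
    have h2 : P x = x := P.injective h1
    rw [h2] at hcon
    linarith
  refine ⟨C.trans (s.symm.trans P.symm), max (M + 1) (R + δ), R + δ / 4,
    sm_trans hCs (sm_trans (sm_symm hss) (sm_symm hPs)), ?_, by linarith,
    fun x hx => hUU x (by linarith), ?_⟩
  · intro x hx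
    have hx1 : M + 1 ≤ ‖x‖ := (le_max_left _ _).trans hx
    have hx2 : R + δ ≤ ‖x‖ := (le_max_right _ _).trans hx
    have hC1 : C x = x := by
      apply hCid
      intro hmem
      have := hM x hmem
      linarith
    have hs1 : s.symm x = x := by
      rw [Equiv.symm_apply_eq]
      exact (hsid x hx2).symm
    have hP2 : P.symm x = x := by
      rw [Equiv.symm_apply_eq]
      exact (hPid x (by linarith)).symm
    show P.symm (s.symm (C x)) = x
    rw [hC1, hs1, hP2]
  · intro x hx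
    show P.symm (s.symm (C (ψ x))) = x
    have h1 : C (ψ x) = ψ (c x) := hCψ x (hUU x (by linarith))
    have h2 : c x = ε • x := hcε x hx
    have h3 : ψ (ε • x) = ε • P x := by
      rw [hPψ x hx, smul_smul, mul_inv_cancel₀ hε.ne', one_smul]
    have h4 : s (P x) = ε • P x := hsε _ (hP1 x hx)
    rw [h1, h2, h3, ← h4, Equiv.symm_apply_apply, Equiv.symm_apply_apply]

end Pool.Agent.Helper28.SZ
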